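import Pool.Agent.Helper96.QT.DefL
import Pool.Agent.Helper12.QT.LapF
import Pool.Agent.Helper63.QT.LapL

/-!
# QTL3: mean bounds on the Liouville side, from the conclusion of `landau_L`

Under the one sided hypothesis `σ F_l(t) ≤ C` for large `t`: `∫ |F_l| e^{-xt} dt ≤ C1 / x` for `0 < x ≤ 1`,
because `|F_l| ≤ 2 C' - σ F_l` for large `t` and `- σ Z(x) ≤ K / x`. Hence `F_l / (1 + t²)` is integrable
and the zeros of `L(s, chi)` on the line `Re s = 1/2` are simple. As
`F_a(t) = sum_{(d,q)=1} mu(d)/d F_l(t - 2 log d)`, also `∫ |F_a| e^{-xt} dt ≤ C2 / x²`, so that `F_a` has the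
Laplace transform `G` for `Re z > 0` and `F_a / (1 + |t|)³` is integrable.
-/

set_option autoImplicit false

namespace Pool.Agent.QT

open Real Filter Topology MeasureTheory Set DirichletCharacter

/-- the conclusion of `landau_L` -/
def LanL64 {q : ℕ} [NeZero q] (χ : DirichletCharacter ℂ q) (l : ℕ → ℝ) : Prop :=
  (∀ x : ℝ, 0 < x → Integrable (fun t : ℝ => Real.exp (-(x * t)) * FF l t)) ∧
      (∀ z : ℂ, 0 < z.re → LFunction χ (1 / 2 + z) ≠ 0 ∧
        ∫ t : ℝ, Complex.exp (-z * t) * (FF l t : ℂ) = ZZ χ z) ∧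
      LFunction χ (1 / 2) ≠ 0 ∧
      ∀ x : ℝ, 0 < x → 0 < ∫ t : ℝ, Real.exp (-(x * t)) * FF l t

private lemma int_ind64 {x : ℝ} (hx : 0 < x) :
    Integrable ((Ioi (0 : ℝ)).indicator fun t : ℝ => Real.exp (-(x * t))) ∧
      ∫ t : ℝ, (Ioi (0 : ℝ)).indicator (fun t : ℝ => Real.exp (-(x * t))) t = 1 / x := by
  have h1 := integrableOn_exp_mul_Ioi (neg_neg_of_pos hx) 0
  have h2 := integral_exp_mul_Ioi (neg_neg_of_pos hx) 0
  have e : (fun t : ℝ => Real.exp (-(x * t))) = fun t => Real.exp (-x * t) := by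
    funext t
    congr 1
    ring
  rw [e]
  refine ⟨(integrable_indicator_iff measurableSet_Ioi).2 h1, ?_⟩
  rw [integral_indicator measurableSet_Ioi, h2, mul_zero, Real.exp_zero, neg_div_neg_eq]

private lemma int_box64 {s : ℝ} (hs : 0 ≤ s) :
    Integrable ((Icc (0 : ℝ) s).indicator fun _ : ℝ => (1 : ℝ)) ∧
      ∫ t : ℝ, (Icc (0 : ℝ) s).indicator (fun _ : ℝ => (1 : ℝ)) t = s := by
  constructor
  · rw [integrable_indicator_iff measurableSet_Icc]
    exact integrableOn_const (by simp) (by simp)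
  · rw [integral_indicator measurableSet_Icc, setIntegral_const]
    simp [hs]

private lemma EE_diff64 (q : ℕ) [NeZero q] : Differentiable ℂ (EE q) := by
  unfold EE
  exact ((differentiable_LFunctionTrivChar₁ q).comp
    (by fun_prop : Differentiable ℂ fun z : ℂ => 1 + 2 * z)).div_const 2

private lemma EE_eq64 (q : ℕ) [NeZero q] {z : ℂ} (hz : z ≠ 0) :
    EE q z = z * LFunction (1 : DirichletCharacter ℂ q) (1 + 2 * z) := by
  unfold EE LFunctionTrivChar₁
  have h1 : (1 + 2 * z) ≠ 1 := by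
    intro h
    apply hz
    linear_combination h / 2
  rw [Function.update_of_ne h1]
  unfold LFunctionTrivChar
  ring

private lemma ZZ_bd64 {q : ℕ} [NeZero q] {χ : DirichletCharacter ℂ q} (hχ : χ ≠ 1)
    (h0 : ∀ x : ℝ, 0 ≤ x → LFunction χ (1 / 2 + (x : ℂ)) ≠ 0) :
    ∃ K : ℝ, 0 ≤ K ∧ ∀ x : ℝ, 0 < x → x ≤ 1 → ‖ZZ χ (x : ℂ)‖ ≤ K / x := by
  have hd := differentiable_LFunction hχ
  have hc : ContinuousOn (fun x : ℝ => EE q (x : ℂ) / ((1 / 2 + (x : ℂ)) * LFunction χ (1 / 2 + (x : ℂ))))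
      (Icc (0 : ℝ) 1) := by
    apply ContinuousOn.div
    · exact ((EE_diff64 q).continuous.comp Complex.continuous_ofReal).continuousOn
    · apply ContinuousOn.mul
      · exact (by fun_prop : Continuous fun x : ℝ => (1 / 2 + (x : ℂ))).continuousOn
      · exact (hd.continuous.comp (by fun_prop : Continuous fun x : ℝ => (1 / 2 + (x : ℂ)))).continuousOn
    · intro x hx
      refine mul_ne_zero ?_ (h0 x hx.1)
      intro h
      have := congrArg Complex.re h
      simp at this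
      linarith [hx.1]
  obtain ⟨K, hK⟩ := isCompact_Icc.exists_bound_of_continuousOn hc
  refine ⟨max K 0, le_max_right _ _, fun x h1 h2 => ?_⟩
  have h3 := (hK x ⟨h1.le, h2⟩).trans (le_max_left K 0)
  have e : ZZ χ (x : ℂ) = EE q (x : ℂ) / ((1 / 2 + (x : ℂ)) * LFunction χ (1 / 2 + (x : ℂ))) / (x : ℂ) := by
    unfold ZZ
    rw [div_div, mul_comm (x : ℂ)]
  rw [e, norm_div, Complex.norm_real, Real.norm_of_nonneg h1.le]
  exact div_le_div_of_nonneg_right h3 h1.le

private lemma cplx64 {q : ℕ} [NeZero q] {χ : DirichletCharacter ℂ q} {l : ℕ → ℝ}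
    (hL : LanL64 χ l) {x : ℝ} (hx : 0 < x) :
    ((∫ t : ℝ, Real.exp (-(x * t)) * FF l t : ℝ) : ℂ) = ZZ χ (x : ℂ) := by
  rw [← (hL.2.1 (x : ℂ) (by simpa using hx)).2, ← integral_complex_ofReal]
  refine integral_congr_ae (Eventually.of_forall fun t => ?_)
  push_cast
  congr 2
  ring

private lemma L1_bound64 {q : ℕ} [NeZero q] {χ : DirichletCharacter ℂ q} {a l : ℕ → ℝ} {σ C : ℝ}
    (h : HypL χ a l σ C) (hL : LanL64 χ l) (hF : ∀ t, |FF l t| ≤ Real.exp (t / 2)) :
    ∃ C1 : ℝ, 0 < C1 ∧ ∀ x : ℝ, 0 < x → x ≤ 1 → ∫ t : ℝ, Real.exp (-(x * t)) * |FF l t| ≤ C1 / x := by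
  obtain ⟨t₁, ht₁⟩ := h.bd
  set s := max t₁ 0 with hs
  set C' := max C 0 with hC'
  set B := Real.exp (s / 2) with hB
  have hs0 : 0 ≤ s := le_max_right _ _
  have hC0 : 0 ≤ C' := le_max_right _ _
  have hB0 : 0 < B := Real.exp_pos _
  -- the bound for `- σ Z`
  have hG : ∃ K : ℝ, 0 ≤ K ∧ ∀ x : ℝ, 0 < x → x ≤ 1 →
      -(σ * ∫ t : ℝ, Real.exp (-(x * t)) * FF l t) ≤ K / x := by
    rcases h.sg with hσ | hσ
    · refine ⟨0, le_rfl, fun x hx _ => ?_⟩
      rw [hσ, one_mul, zero_div]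
      linarith [hL.2.2.2 x hx]
    · obtain ⟨K, hK0, hK⟩ := ZZ_bd64 (χ := χ) h.dat.dat.ne (fun x hx => by
        rcases hx.eq_or_lt with hx0 | hx0
        · have h1 := hL.2.2.1
          rw [← hx0]
          simpa using h1
        · exact (hL.2.1 (x : ℂ) (by simpa using hx0)).1)
      refine ⟨K, hK0, fun x hx hx1 => ?_⟩
      have h2 := hK x hx hx1
      rw [← cplx64 hL hx, Complex.norm_real, Real.norm_eq_abs] at h2
      rw [hσ]
      have := le_abs_self (∫ t : ℝ, Real.exp (-(x * t)) * FF l t)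
      linarith
  obtain ⟨K, hK0, hK⟩ := hG
  refine ⟨2 * C' + K + 2 * B * s + 1, by positivity, fun x hx hx1 => ?_⟩
  have hi1 := int_ind64 hx
  have hi2 := int_box64 hs0
  have hi3 := hL.1 x hx
  have hpt : ∀ t : ℝ, Real.exp (-(x * t)) * |FF l t| ≤
      2 * C' * (Ioi (0 : ℝ)).indicator (fun t : ℝ => Real.exp (-(x * t))) t +
      (-σ) * (Real.exp (-(x * t)) * FF l t) +
      2 * B * (Icc (0 : ℝ) s).indicator (fun _ : ℝ => (1 : ℝ)) t := by
    intro t
    have hσ1 : |σ| = 1 := by rcases h.sg with h1 | h1 <;> rw [h1] <;> norm_num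
    have hσF : |σ * FF l t| = |FF l t| := by rw [abs_mul, hσ1, one_mul]
    have e0 : 0 < Real.exp (-(x * t)) := Real.exp_pos _
    have hI0 : 0 ≤ (Icc (0 : ℝ) s).indicator (fun _ : ℝ => (1 : ℝ)) t :=
      indicator_nonneg (fun _ _ => zero_le_one) _
    have hJ0 : 0 ≤ (Ioi (0 : ℝ)).indicator (fun t : ℝ => Real.exp (-(x * t))) t :=
      indicator_nonneg (fun _ _ => (Real.exp_pos _).le) _
    rcases lt_or_ge t 0 with ht | ht
    · have : FF l t = 0 := by
        unfold FF
        rw [if_neg (not_le.2 ht)]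
      rw [this]
      simp only [abs_zero, mul_zero, add_zero]
      positivity
    · rcases le_or_gt t s with hts | hts
      · have h1 : (Icc (0 : ℝ) s).indicator (fun _ : ℝ => (1 : ℝ)) t = 1 :=
          indicator_of_mem (show t ∈ Icc (0 : ℝ) s from ⟨ht, hts⟩) _
        rw [h1]
        have h2 : |FF l t| ≤ B := (hF t).trans (Real.exp_le_exp.2 (by linarith))
        have h3 : Real.exp (-(x * t)) ≤ 1 := Real.exp_le_one_iff.2 (by nlinarith)
        have h4 : Real.exp (-(x * t)) * |FF l t| ≤ 1 * B :=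
          mul_le_mul h3 h2 (abs_nonneg _) zero_le_one
        have h5 : -(Real.exp (-(x * t)) * |FF l t|) ≤ (-σ) * (Real.exp (-(x * t)) * FF l t) := by
          have h6 : σ * FF l t ≤ |FF l t| := hσF ▸ le_abs_self _
          have h7 := mul_le_mul_of_nonneg_left h6 e0.le
          have h8 : (-σ) * (Real.exp (-(x * t)) * FF l t) = -(Real.exp (-(x * t)) * (σ * FF l t)) := by
            ring
          rw [h8]
          linarith
        have h9 : 0 ≤ 2 * C' * (Ioi (0 : ℝ)).indicator (fun t : ℝ => Real.exp (-(x * t))) t := by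
          positivity
        linarith
      · have ht0 : 0 < t := lt_of_le_of_lt hs0 hts
        have h1 : (Ioi (0 : ℝ)).indicator (fun t : ℝ => Real.exp (-(x * t))) t = Real.exp (-(x * t)) :=
          indicator_of_mem (show t ∈ Ioi (0 : ℝ) from ht0) _
        rw [h1]
        have h2 : σ * FF l t ≤ C' :=
          (ht₁ t ((le_max_left _ _).trans hts.le)).trans (le_max_left _ _)
        have h3 : |FF l t| ≤ 2 * C' - σ * FF l t := by
          rw [← hσF]
          rcases abs_cases (σ * FF l t) with ⟨h4, _⟩ | ⟨h4, _⟩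
          · rw [h4]
            linarith
          · rw [h4]
            linarith
        have h5 := mul_le_mul_of_nonneg_left h3 e0.le
        have h6 : 0 ≤ 2 * B * (Icc (0 : ℝ) s).indicator (fun _ : ℝ => (1 : ℝ)) t := by positivity
        have h7 : Real.exp (-(x * t)) * (2 * C' - σ * FF l t) =
            2 * C' * Real.exp (-(x * t)) + (-σ) * (Real.exp (-(x * t)) * FF l t) := by ring
        linarith
  have hint : Integrable fun t : ℝ => 2 * C' * (Ioi (0 : ℝ)).indicator (fun t : ℝ => Real.exp (-(x * t))) t +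
      (-σ) * (Real.exp (-(x * t)) * FF l t) +
      2 * B * (Icc (0 : ℝ) s).indicator (fun _ : ℝ => (1 : ℝ)) t :=
    ((hi1.1.const_mul _).add (hi3.const_mul _)).add (hi2.1.const_mul _)
  have h1 : ∫ t : ℝ, Real.exp (-(x * t)) * |FF l t| ≤ ∫ t : ℝ,
      (2 * C' * (Ioi (0 : ℝ)).indicator (fun t : ℝ => Real.exp (-(x * t))) t +
      (-σ) * (Real.exp (-(x * t)) * FF l t) +
      2 * B * (Icc (0 : ℝ) s).indicator (fun _ : ℝ => (1 : ℝ)) t) :=
    integral_mono_of_nonneg (Eventually.of_forall fun t => by positivity) hint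
      (Eventually.of_forall hpt)
  refine h1.trans ?_
  have g1 : Integrable fun t : ℝ => 2 * C' * (Ioi (0 : ℝ)).indicator (fun t : ℝ => Real.exp (-(x * t))) t :=
    hi1.1.const_mul _
  have g2 : Integrable fun t : ℝ => (-σ) * (Real.exp (-(x * t)) * FF l t) := hi3.const_mul _
  have g3 : Integrable fun t : ℝ => 2 * B * (Icc (0 : ℝ) s).indicator (fun _ : ℝ => (1 : ℝ)) t :=
    hi2.1.const_mul _
  have g12 : Integrable fun t : ℝ => 2 * C' * (Ioi (0 : ℝ)).indicator (fun t : ℝ => Real.exp (-(x * t))) t +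
      (-σ) * (Real.exp (-(x * t)) * FF l t) := g1.add g2
  rw [integral_add g12 g3, integral_add g1 g2, integral_const_mul, integral_const_mul,
    integral_const_mul, hi1.2, hi2.2]
  have h2 := hK x hx hx1
  have h4 : 2 * B * s ≤ 2 * B * s / x := by
    rw [le_div_iff₀ hx]
    have : 0 ≤ 2 * B * s := by positivity
    nlinarith
  have h5 : 0 ≤ 1 / x := by positivity
  have h6 : (2 * C' + K + 2 * B * s + 1) / x = 2 * C' * (1 / x) + K / x + 2 * B * s / x + 1 / x := by
    ring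
  rw [h6]
  linarith

private lemma weight64 (k : ℕ) {t : ℝ} (ht : 0 ≤ t) :
    ENNReal.ofReal (((1 + t) ^ (k + 1))⁻¹) ≤
      ENNReal.ofReal (2 ^ (k + 1) * Real.exp 1) *
        ∫⁻ x in Ioc (0 : ℝ) 1, ENNReal.ofReal (x ^ k * Real.exp (-(x * t))) := by
  have h1t : 0 < 1 + t := by linarith
  set u := 1 / (1 + t) with hu
  have hu0 : 0 < u := by positivity
  have hu1 : u ≤ 1 := by
    rw [hu, div_le_one h1t]
    linarith
  have hut : u * t ≤ 1 := by
    rw [hu, one_div_mul_eq_div, div_le_one h1t]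
    linarith
  have hsub : Ioc (u / 2) u ⊆ Ioc (0 : ℝ) 1 := fun x hx =>
    ⟨lt_of_le_of_lt (by positivity) hx.1, hx.2.trans hu1⟩
  have h2 : ∫⁻ x in Ioc (u / 2) u, ENNReal.ofReal ((u / 2) ^ k * Real.exp (-1)) ≤
      ∫⁻ x in Ioc (0 : ℝ) 1, ENNReal.ofReal (x ^ k * Real.exp (-(x * t))) := by
    refine (setLIntegral_mono' measurableSet_Ioc fun x hx => ?_).trans (lintegral_mono_set hsub)
    apply ENNReal.ofReal_le_ofReal
    have hx0 : 0 ≤ x := le_trans (by positivity) hx.1.le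
    apply mul_le_mul (pow_le_pow_left₀ (by positivity) hx.1.le k) _ (Real.exp_pos _).le (pow_nonneg hx0 k)
    apply Real.exp_le_exp.2
    have : x * t ≤ u * t := mul_le_mul_of_nonneg_right hx.2 ht
    linarith
  rw [setLIntegral_const, Real.volume_Ioc, ← ENNReal.ofReal_mul (by positivity)] at h2
  refine le_trans ?_ (mul_le_mul_right h2 _)
  rw [← ENNReal.ofReal_mul (by positivity)]
  apply ENNReal.ofReal_le_ofReal
  have e1 : 2 ^ (k + 1) * Real.exp 1 * ((u / 2) ^ k * Real.exp (-1) * (u - u / 2)) = u ^ (k + 1) := by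
    have : Real.exp 1 * Real.exp (-1) = 1 := by
      rw [← Real.exp_add]
      simp
    calc 2 ^ (k + 1) * Real.exp 1 * ((u / 2) ^ k * Real.exp (-1) * (u - u / 2)) =
        2 ^ (k + 1) * (u / 2) ^ (k + 1) * (Real.exp 1 * Real.exp (-1)) := by ring
      _ = u ^ (k + 1) := by
          rw [this, mul_one, ← mul_pow]
          congr 1
          ring
  rw [e1, hu, one_div, inv_pow]

private lemma wint64 (k : ℕ) {F w : ℝ → ℝ} (hm : Measurable F) (h0 : ∀ t < 0, F t = 0) (hw : Measurable w)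
    (hw0 : ∀ t : ℝ, 0 ≤ t → 0 ≤ w t) {c : ℝ} (hc : 0 ≤ c) (hw1 : ∀ t : ℝ, 0 ≤ t → w t ≤ c * ((1 + t) ^ (k + 1))⁻¹)
    {C1 : ℝ} (hi : ∀ x : ℝ, 0 < x → Integrable (fun t : ℝ => Real.exp (-(x * t)) * F t))
    (hb : ∀ x : ℝ, 0 < x → x ≤ 1 → ∫ t : ℝ, Real.exp (-(x * t)) * |F t| ≤ C1 / x ^ k) :
    Integrable (fun t : ℝ => F t * w t) := by
  have hmeas : Measurable fun t : ℝ => F t * w t := hm.mul hw
  refine ⟨hmeas.aestronglyMeasurable, ?_⟩
  rw [hasFiniteIntegral_iff_enorm]
  have h1 : ∀ t, ‖F t * w t‖ₑ ≤ (ENNReal.ofReal c * ENNReal.ofReal (2 ^ (k + 1) * Real.exp 1)) *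
      ∫⁻ x in Ioc (0 : ℝ) 1, ENNReal.ofReal (x ^ k * (Real.exp (-(x * t)) * |F t|)) := by
    intro t
    rcases lt_or_ge t 0 with ht | ht
    · rw [h0 t ht]
      simp
    · rw [← ofReal_norm, norm_mul, Real.norm_eq_abs, Real.norm_of_nonneg (hw0 t ht),
        ENNReal.ofReal_mul (abs_nonneg _)]
      have h2 : ENNReal.ofReal (w t) ≤ ENNReal.ofReal c * (ENNReal.ofReal (2 ^ (k + 1) * Real.exp 1) *
        ∫⁻ x in Ioc (0 : ℝ) 1, ENNReal.ofReal (x ^ k * Real.exp (-(x * t)))) := by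
        refine (ENNReal.ofReal_le_ofReal (hw1 t ht)).trans ?_
        rw [ENNReal.ofReal_mul hc]
        exact mul_le_mul_right (weight64 k ht) _
      refine (mul_le_mul_right h2 _).trans (le_of_eq ?_)
      rw [← mul_assoc (ENNReal.ofReal c), mul_left_comm, ← lintegral_const_mul _ (by fun_prop)]
      congr 1
      refine lintegral_congr fun x => ?_
      rw [← ENNReal.ofReal_mul (abs_nonneg _)]
      congr 1
      ring
  refine lt_of_le_of_lt (lintegral_mono h1) ?_
  have hm2 : Measurable fun p : ℝ × ℝ => ENNReal.ofReal (p.2 ^ k * (Real.exp (-(p.2 * p.1)) * |F p.1|)) := by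
    have hF1 : Measurable fun p : ℝ × ℝ => F p.1 := hm.comp measurable_fst
    have hF2 : Measurable fun p : ℝ × ℝ => |F p.1| := hF1.abs
    exact ENNReal.measurable_ofReal.comp ((measurable_snd.pow_const k).mul ((by fun_prop :
      Measurable fun p : ℝ × ℝ => Real.exp (-(p.2 * p.1))).mul hF2))
  rw [lintegral_const_mul' _ _ (ENNReal.mul_ne_top ENNReal.ofReal_ne_top ENNReal.ofReal_ne_top),
    lintegral_lintegral_swap hm2.aemeasurable]
  refine ENNReal.mul_lt_top (ENNReal.mul_lt_top ENNReal.ofReal_lt_top ENNReal.ofReal_lt_top) ?_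
  have h2 : ∫⁻ x in Ioc (0 : ℝ) 1, ∫⁻ t : ℝ, ENNReal.ofReal (x ^ k * (Real.exp (-(x * t)) * |F t|)) ≤
      ∫⁻ _ in Ioc (0 : ℝ) 1, ENNReal.ofReal C1 := by
    refine setLIntegral_mono' measurableSet_Ioc fun x hx => ?_
    have h3 : Integrable fun t : ℝ => x ^ k * (Real.exp (-(x * t)) * |F t|) := by
      have h4 := (hi x hx.1).norm.const_mul (x ^ k)
      refine h4.congr (Eventually.of_forall fun t => ?_)
      simp only [norm_mul, Real.norm_eq_abs, Real.abs_exp]
    have hxk : 0 < x ^ k := pow_pos hx.1 k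
    rw [← ofReal_integral_eq_lintegral_ofReal h3 (Eventually.of_forall fun t => by
      positivity)]
    apply ENNReal.ofReal_le_ofReal
    rw [integral_const_mul]
    have h5 := mul_le_mul_of_nonneg_left (hb x hx.1 hx.2) hxk.le
    rwa [mul_div_cancel₀ _ hxk.ne'] at h5
  refine lt_of_le_of_lt h2 ?_
  rw [setLIntegral_const, Real.volume_Ioc]
  exact ENNReal.mul_lt_top ENNReal.ofReal_lt_top ENNReal.ofReal_lt_top

private lemma simple64 {q : ℕ} [NeZero q] {χ : DirichletCharacter ℂ q} (hχ : χ ≠ 1) {l : ℕ → ℝ} {C1 : ℝ}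
    (hC1 : 0 < C1) (hL : LanL64 χ l)
    (hb : ∀ x : ℝ, 0 < x → x ≤ 1 → ∫ t : ℝ, Real.exp (-(x * t)) * |FF l t| ≤ C1 / x)
    (γ : ℝ) (hz : LFunction χ (1 / 2 + Complex.I * γ) = 0) :
    deriv (fun z : ℂ => LFunction χ (1 / 2 + z)) (Complex.I * γ) ≠ 0 := by
  intro hd
  have hγ : γ ≠ 0 := by
    intro h0
    rw [h0] at hz
    simp only [Complex.ofReal_zero, mul_zero, add_zero] at hz
    exact hL.2.2.1 hz
  have hIγ : Complex.I * (γ : ℂ) ≠ 0 := mul_ne_zero Complex.I_ne_zero (by exact_mod_cast hγ)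
  have hdiff := differentiable_LFunction hχ
  have hg : DifferentiableAt ℂ (fun z : ℂ => LFunction χ (1 / 2 + z)) (Complex.I * γ) := by
    exact (hdiff.comp (by fun_prop : Differentiable ℂ fun z : ℂ => 1 / 2 + z)).differentiableAt
  have h1 := hg.hasDerivAt
  rw [hd] at h1
  -- along `iγ + x`
  have hlin : HasDerivAt (fun x : ℝ => Complex.I * γ + (x : ℂ)) 1 0 := by
    simpa using (Complex.ofRealCLM.hasDerivAt (x := 0)).const_add (Complex.I * γ)
  have h2 : HasDerivAt (fun x : ℝ => LFunction χ (1 / 2 + (Complex.I * γ + (x : ℂ)))) 0 0 := by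
    have h3 : HasDerivAt (fun z : ℂ => LFunction χ (1 / 2 + z)) 0 (Complex.I * γ + ((0 : ℝ) : ℂ)) := by
      simpa using h1
    have h4 := h3.scomp (0 : ℝ) hlin
    rw [smul_zero] at h4
    exact h4
  have h3 := h2.tendsto_slope_zero_right
  simp only [zero_add, Complex.ofReal_zero, add_zero, hz, sub_zero] at h3
  -- `EE` at `iγ`
  have hE : EE q (Complex.I * γ) ≠ 0 := by
    rw [EE_eq64 q hIγ]
    refine mul_ne_zero hIγ ?_
    apply LFunction_ne_zero_of_one_le_re
    · right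
      intro h
      apply hIγ
      linear_combination h / 2
    · simp
  have hEc : Tendsto (fun x : ℝ => ‖EE q (Complex.I * γ + (x : ℂ))‖) (𝓝[>] 0) (𝓝 ‖EE q (Complex.I * γ)‖) := by
    have h5 : Continuous fun x : ℝ => ‖EE q (Complex.I * γ + (x : ℂ))‖ :=
      ((EE_diff64 q).continuous.comp (by fun_prop : Continuous fun x : ℝ => Complex.I * γ + (x : ℂ))).norm
    have h6 := h5.tendsto 0
    simp only [Complex.ofReal_zero, add_zero] at h6
    exact h6.mono_left nhdsWithin_le_nhds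
  set e0 : ℝ := ‖EE q (Complex.I * γ)‖ with he0
  have he00 : 0 < e0 := norm_pos_iff.2 hE
  have hEl : ∀ᶠ x : ℝ in 𝓝[>] 0, e0 / 2 < ‖EE q (Complex.I * γ + (x : ℂ))‖ :=
    hEc.eventually_const_lt (by linarith)
  -- lower bound
  set K : ℝ := (1 + |γ|) * (3 / 2 + |γ|) with hK
  have hK0 : 0 < K := by positivity
  have h5 : ∀ᶠ x : ℝ in 𝓝[>] 0, e0 / 2 / (C1 * K) ≤
      ‖x⁻¹ • LFunction χ (1 / 2 + (Complex.I * γ + (x : ℂ)))‖ := by
    filter_upwards [Ioc_mem_nhdsGT (zero_lt_one' ℝ), hEl] with x hx hxE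
    obtain ⟨hx, hx1⟩ := hx
    have hre : 0 < (Complex.I * γ + (x : ℂ)).re := by simpa using hx
    obtain ⟨hne, hint⟩ := hL.2.1 (Complex.I * γ + (x : ℂ)) hre
    have h4 : ‖ZZ χ (Complex.I * γ + (x : ℂ))‖ ≤ C1 / x := by
      rw [← hint]
      refine (norm_integral_le_integral_norm _).trans (le_trans (le_of_eq ?_) (hb x hx hx1))
      refine integral_congr_ae (Eventually.of_forall fun t => ?_)
      simp only [norm_mul, Complex.norm_real, Real.norm_eq_abs, Complex.norm_exp]
      congr 2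
      simp
    unfold ZZ at h4
    rw [norm_div, norm_mul, norm_mul] at h4
    have hn : ‖Complex.I * (γ : ℂ)‖ = |γ| := by
      rw [norm_mul, Complex.norm_I, one_mul, Complex.norm_real, Real.norm_eq_abs]
    have hn2 : ‖Complex.I * (γ : ℂ) + (x : ℂ)‖ ≤ 1 + |γ| := by
      refine (norm_add_le _ _).trans ?_
      rw [hn, Complex.norm_real, Real.norm_of_nonneg hx.le]
      linarith
    have hn3 : ‖(1 / 2 : ℂ) + (Complex.I * γ + (x : ℂ))‖ ≤ 3 / 2 + |γ| := by
      refine (norm_add_le _ _).trans ?_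
      have : ‖(1 / 2 : ℂ)‖ = 1 / 2 := by norm_num
      rw [this]
      linarith
    have hLp : 0 < ‖LFunction χ (1 / 2 + (Complex.I * γ + (x : ℂ)))‖ := norm_pos_iff.2 hne
    have hzp : 0 < ‖Complex.I * (γ : ℂ) + (x : ℂ)‖ := by
      rw [norm_pos_iff]
      intro h6
      rw [h6] at hre
      simp at hre
    have hwp : 0 < ‖(1 / 2 : ℂ) + (Complex.I * γ + (x : ℂ))‖ := by
      rw [norm_pos_iff]
      intro h6
      have := congrArg Complex.re h6
      simp at this
      linarith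
    rw [div_le_div_iff₀ (mul_pos hzp (mul_pos hwp hLp)) hx] at h4
    rw [norm_smul, norm_inv, Real.norm_of_nonneg hx.le, inv_mul_eq_div, div_le_div_iff₀ (mul_pos hC1 hK0) hx]
    calc e0 / 2 * x ≤ ‖EE q (Complex.I * γ + (x : ℂ))‖ * x := mul_le_mul_of_nonneg_right hxE.le hx.le
      _ ≤ C1 * (‖Complex.I * (γ : ℂ) + (x : ℂ)‖ * (‖(1 / 2 : ℂ) + (Complex.I * γ + (x : ℂ))‖ *
          ‖LFunction χ (1 / 2 + (Complex.I * γ + (x : ℂ)))‖)) := h4
      _ = (C1 * ‖LFunction χ (1 / 2 + (Complex.I * γ + (x : ℂ)))‖) *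
          (‖Complex.I * (γ : ℂ) + (x : ℂ)‖ * ‖(1 / 2 : ℂ) + (Complex.I * γ + (x : ℂ))‖) := by ring
      _ ≤ (C1 * ‖LFunction χ (1 / 2 + (Complex.I * γ + (x : ℂ)))‖) * K := by
          apply mul_le_mul_of_nonneg_left _ (mul_pos hC1 hLp).le
          exact mul_le_mul hn2 hn3 hwp.le (by positivity)
      _ = ‖LFunction χ (1 / 2 + (Complex.I * γ + (x : ℂ)))‖ * (C1 * K) := by ring
  have h6 := ge_of_tendsto h3.norm h5
  rw [norm_zero] at h6
  have : 0 < e0 / 2 / (C1 * K) := by positivity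
  linarith

/-- the coefficients `mu(d)/d` for `d` prime to `q` -/
private noncomputable def cc64 (q d : ℕ) : ℝ :=
  if d.Coprime q then ((ArithmeticFunction.moebius d : ℤ) : ℝ) / d else 0

private lemma abs_cc64 (q d : ℕ) : |cc64 q d| ≤ (d : ℝ)⁻¹ := by
  unfold cc64
  split_ifs
  · rw [abs_div, Nat.abs_cast, div_eq_mul_inv]
    have h2 := ArithmeticFunction.abs_moebius_le_one (n := d)
    have h3 : |((ArithmeticFunction.moebius d : ℤ) : ℝ)| ≤ 1 := by exact_mod_cast h2
    calc |((ArithmeticFunction.moebius d : ℤ) : ℝ)| * (d : ℝ)⁻¹ ≤ 1 * (d : ℝ)⁻¹ :=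
          mul_le_mul_of_nonneg_right h3 (by positivity)
      _ = (d : ℝ)⁻¹ := one_mul _
  · rw [abs_zero]
    positivity

private lemma cc64_zero (q : ℕ) : cc64 q 0 = 0 := by
  unfold cc64
  simp

/-- `F_a(t) = sum_d c_d F_l(t - 2 log d)` -/
private lemma FFa_eq64 {q : ℕ} [NeZero q] {χ : DirichletCharacter ℂ q} {a l : ℕ → ℝ} (h : DatL χ a l) (t : ℝ) :
    HasSum (fun d : ℕ => cc64 q d * FF l (t - 2 * Real.log d)) (FF a t) := by
  rcases lt_or_ge t 0 with ht | ht
  · have h1 : FF a t = 0 := by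
      unfold FF
      rw [if_neg (not_le.2 ht)]
    have h2 : ∀ d : ℕ, cc64 q d * FF l (t - 2 * Real.log d) = 0 := by
      intro d
      rcases Nat.eq_zero_or_pos d with hd | hd
      · rw [hd, cc64_zero, zero_mul]
      · have h3 : 0 ≤ Real.log d := Real.log_nonneg (by exact_mod_cast hd)
        have h4 : FF l (t - 2 * Real.log d) = 0 := by
          unfold FF
          rw [if_neg (by linarith)]
        rw [h4, mul_zero]
    rw [h1]
    simp only [h2]
    exact hasSum_zero
  · set S := (Finset.Icc 1 ⌊Real.sqrt (Real.exp t)⌋₊).filter (fun d => d.Coprime q) with hS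
    have hout : ∀ d ∉ S, cc64 q d * FF l (t - 2 * Real.log d) = 0 := by
      intro d hd
      rcases Nat.eq_zero_or_pos d with h0 | h0
      · rw [h0, cc64_zero, zero_mul]
      · by_cases hco : d.Coprime q
        · have h3 : ¬ d ≤ ⌊Real.sqrt (Real.exp t)⌋₊ := by
            intro h4
            exact hd (Finset.mem_filter.2 ⟨Finset.mem_Icc.2 ⟨h0, h4⟩, hco⟩)
          have h5 : Real.sqrt (Real.exp t) < d := by
            rw [← not_le]
            intro h6
            exact h3 (Nat.le_floor h6)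
          have hd0 : (0 : ℝ) < d := by exact_mod_cast h0
          have h6 : t < 2 * Real.log d := by
            rw [Real.sqrt_lt' hd0] at h5
            have h7 := Real.log_lt_log (Real.exp_pos t) h5
            rw [Real.log_exp, Real.log_pow] at h7
            exact_mod_cast h7
          have h7 : FF l (t - 2 * Real.log d) = 0 := by
            unfold FF
            rw [if_neg (by linarith)]
          rw [h7, mul_zero]
        · unfold cc64
          rw [if_neg hco, zero_mul]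
    have hsum : HasSum (fun d : ℕ => cc64 q d * FF l (t - 2 * Real.log d))
        (∑ d ∈ S, cc64 q d * FF l (t - 2 * Real.log d)) := hasSum_sum_of_ne_finset_zero hout
    convert hsum using 1
    have h1 : FF a t = Real.exp (-(t / 2)) * mS a (Real.exp t) := by
      unfold FF
      rw [if_pos ht]
    rw [h1, mS_eq_sum h _ (Real.exp_pos t).le, Finset.mul_sum]
    refine Finset.sum_congr rfl fun d hd => ?_
    rw [Finset.mem_filter, Finset.mem_Icc] at hd
    obtain ⟨⟨hd1, hd2⟩, hco⟩ := hd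
    have hd0 : (0 : ℝ) < d := by exact_mod_cast hd1
    have h3 : (d : ℝ) ≤ Real.sqrt (Real.exp t) := by
      have := Nat.floor_le (Real.sqrt_nonneg (Real.exp t))
      exact le_trans (by exact_mod_cast hd2) this
    have h4 : 2 * Real.log d ≤ t := by
      have h5 := (Real.le_sqrt hd0.le (Real.exp_pos t).le).1 h3
      have h7 := Real.log_le_log (by positivity) h5
      rw [Real.log_exp, Real.log_pow] at h7
      exact_mod_cast h7
    have h5 : Real.exp (t - 2 * Real.log d) = Real.exp t / (d : ℝ) ^ 2 := by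
      rw [Real.exp_sub, mul_comm 2 (Real.log d), Real.exp_mul, Real.exp_log hd0]
      norm_num
    have h6 : FF l (t - 2 * Real.log d) = Real.exp (-(t / 2)) * d * mS l (Real.exp t / (d : ℝ) ^ 2) := by
      unfold FF
      rw [if_pos (by linarith), h5]
      congr 1
      have : -((t - 2 * Real.log d) / 2) = -(t / 2) + Real.log d := by ring
      rw [this, Real.exp_add, Real.exp_log hd0]
    rw [h6]
    unfold cc64
    rw [if_pos hco]
    field_simp

private lemma zsum64 {x : ℝ} (hx : 0 < x) :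
    Summable (fun d : ℕ => (d : ℝ)⁻¹ * Real.exp (-(x * (2 * Real.log d)))) ∧
      ∑' d : ℕ, (d : ℝ)⁻¹ * Real.exp (-(x * (2 * Real.log d))) ≤ 1 + 1 / (2 * x) := by
  have e : (fun d : ℕ => (d : ℝ)⁻¹ * Real.exp (-(x * (2 * Real.log d)))) =
      fun d : ℕ => 1 / (d : ℝ) ^ (1 + 2 * x) := by
    funext d
    rcases Nat.eq_zero_or_pos d with hd | hd
    · rw [hd]
      simp [Real.zero_rpow (by linarith : 1 + 2 * x ≠ 0)]
    · have hd0 : (0 : ℝ) < d := by exact_mod_cast hd
      rw [Real.rpow_add hd0, Real.rpow_one, Real.rpow_def_of_pos hd0, one_div, mul_inv, ← Real.exp_neg]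
      congr 2
      ring
  have hs : Summable (fun d : ℕ => 1 / (d : ℝ) ^ (1 + 2 * x)) :=
    Real.summable_one_div_nat_rpow.2 (by linarith)
  rw [e]
  refine ⟨hs, ?_⟩
  rw [hs.tsum_eq_zero_add]
  have h0 : (1 : ℝ) / ((0 : ℕ) : ℝ) ^ (1 + 2 * x) = 0 := by
    simp [Real.zero_rpow (by linarith : 1 + 2 * x ≠ 0)]
  rw [h0, zero_add]
  have h1 := ZetaAsymptotics.zeta_limit_aux1 (show 1 < 1 + 2 * x by linarith)
  have h2 : 0 ≤ ZetaAsymptotics.termTSum (1 + 2 * x) :=
    tsum_nonneg fun n => ZetaAsymptotics.term_nonneg (n + 1) _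
  have h3 : 0 ≤ (1 + 2 * x) * ZetaAsymptotics.termTSum (1 + 2 * x) := by positivity
  have h4 : 1 + 2 * x - 1 = 2 * x := by ring
  rw [h4] at h1
  push_cast
  linarith

private lemma shift64 {F : ℝ → ℝ} {x : ℝ} (hi : Integrable (fun t : ℝ => Real.exp (-(x * t)) * |F t|)) (s : ℝ) :
    Integrable (fun t : ℝ => Real.exp (-(x * t)) * |F (t - s)|) ∧
      ∫ t : ℝ, Real.exp (-(x * t)) * |F (t - s)| =
        Real.exp (-(x * s)) * ∫ t : ℝ, Real.exp (-(x * t)) * |F t| := by
  have e : (fun t : ℝ => Real.exp (-(x * t)) * |F (t - s)|) =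
      fun t : ℝ => Real.exp (-(x * s)) * (Real.exp (-(x * (t - s))) * |F (t - s)|) := by
    funext t
    rw [← mul_assoc, ← Real.exp_add]
    congr 2
    ring
  rw [e]
  refine ⟨(hi.comp_sub_right s).const_mul _, ?_⟩
  rw [integral_const_mul, integral_sub_right_eq_self (fun t : ℝ => Real.exp (-(x * t)) * |F t|) s]

private lemma tsum_bound64 {ι : Type*} [Countable ι] {F : ι → ℝ → ℝ} (hF0 : ∀ i t, 0 ≤ F i t)
    (hFm : ∀ i, Measurable (F i)) (hFi : ∀ i, Integrable (F i)) {B : ℝ}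
    (hB : ∀ Z : Finset ι, ∑ i ∈ Z, ∫ t, F i t ≤ B) :
    Integrable (fun t => ∑' i, F i t) ∧ ∫ t, ∑' i, F i t ≤ B := by
  have hB0 : 0 ≤ B := by simpa using hB ∅
  have e1 : (fun t => ∑' i, F i t) = fun t => (∑' i, ENNReal.ofReal (F i t)).toReal := by
    funext t
    rw [ENNReal.tsum_toReal_eq (fun i => ENNReal.ofReal_ne_top)]
    simp only [ENNReal.toReal_ofReal (hF0 _ _)]
  have hm : Measurable (fun t => ∑' i, ENNReal.ofReal (F i t)) :=
    Measurable.tsum fun i => (hFm i).ennreal_ofReal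
  have hl : ∫⁻ t, ∑' i, ENNReal.ofReal (F i t) ≤ ENNReal.ofReal B := by
    rw [lintegral_tsum fun i => (hFm i).ennreal_ofReal.aemeasurable]
    rw [ENNReal.tsum_eq_iSup_sum]
    refine iSup_le fun Z => ?_
    have e2 : ∀ i, ∫⁻ t, ENNReal.ofReal (F i t) = ENNReal.ofReal (∫ t, F i t) := by
      intro i
      rw [ofReal_integral_eq_lintegral_ofReal (hFi i) (ae_of_all _ (hF0 i))]
    simp only [e2]
    rw [← ENNReal.ofReal_sum_of_nonneg fun i _ => integral_nonneg (hF0 i)]
    exact ENNReal.ofReal_le_ofReal (hB Z)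
  have hne : ∫⁻ t, ∑' i, ENNReal.ofReal (F i t) ≠ ⊤ :=
    (hl.trans_lt ENNReal.ofReal_lt_top).ne
  rw [e1]
  refine ⟨integrable_toReal_of_lintegral_ne_top hm.aemeasurable hne, ?_⟩
  rw [integral_toReal hm.aemeasurable (ae_lt_top hm hne)]
  calc (∫⁻ t, ∑' i, ENNReal.ofReal (F i t)).toReal ≤ (ENNReal.ofReal B).toReal :=
        ENNReal.toReal_mono ENNReal.ofReal_ne_top hl
    _ = B := ENNReal.toReal_ofReal hB0

private lemma habs64 {F : ℝ → ℝ} {x : ℝ} (hi : Integrable (fun t : ℝ => Real.exp (-(x * t)) * F t)) :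
    Integrable (fun t : ℝ => Real.exp (-(x * t)) * |F t|) := by
  refine hi.norm.congr (Eventually.of_forall fun t => ?_)
  simp only [norm_mul, Real.norm_eq_abs, Real.abs_exp]

private lemma FFa_bound64 {q : ℕ} [NeZero q] {χ : DirichletCharacter ℂ q} {a l : ℕ → ℝ} (h : DatL χ a l)
    {x : ℝ} (hx : 0 < x) (hi0 : Integrable (fun t : ℝ => Real.exp (-(x * t)) * FF l t)) :
    Integrable (fun t : ℝ => Real.exp (-(x * t)) * FF a t) ∧
      ∫ t : ℝ, Real.exp (-(x * t)) * |FF a t| ≤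
        (1 + 1 / (2 * x)) * ∫ t : ℝ, Real.exp (-(x * t)) * |FF l t| := by
  have hi := habs64 hi0
  set I := ∫ t : ℝ, Real.exp (-(x * t)) * |FF l t| with hI
  have hI0 : 0 ≤ I := integral_nonneg fun t => by positivity
  have hz := zsum64 hx
  have hmF := measurable_FF l
  obtain ⟨g1, g2⟩ := tsum_bound64
    (F := fun (d : ℕ) (t : ℝ) => |cc64 q d| * (Real.exp (-(x * t)) * |FF l (t - 2 * Real.log d)|))
    (B := (1 + 1 / (2 * x)) * I) (fun d t => by positivity)
    (fun d => by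
      have h1 : Measurable fun t : ℝ => FF l (t - 2 * Real.log d) := hmF.comp (by fun_prop)
      have h2 : Measurable fun t : ℝ => |FF l (t - 2 * Real.log d)| := h1.abs
      exact ((by fun_prop : Measurable fun t : ℝ => Real.exp (-(x * t))).mul h2).const_mul _)
    (fun d => (shift64 hi (2 * Real.log d)).1.const_mul _)
    (fun Z => by
      calc ∑ d ∈ Z, ∫ t : ℝ, |cc64 q d| * (Real.exp (-(x * t)) * |FF l (t - 2 * Real.log d)|) ≤
          ∑ d ∈ Z, (d : ℝ)⁻¹ * Real.exp (-(x * (2 * Real.log d))) * I := by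
            refine Finset.sum_le_sum fun d _ => ?_
            rw [integral_const_mul, (shift64 hi (2 * Real.log d)).2, ← mul_assoc]
            exact mul_le_mul_of_nonneg_right
              (mul_le_mul_of_nonneg_right (abs_cc64 q d) (Real.exp_pos _).le) hI0
        _ = (∑ d ∈ Z, (d : ℝ)⁻¹ * Real.exp (-(x * (2 * Real.log d)))) * I := (Finset.sum_mul _ _ _).symm
        _ ≤ (1 + 1 / (2 * x)) * I := by
            refine mul_le_mul_of_nonneg_right ?_ hI0
            exact (hz.1.sum_le_tsum Z fun d _ => by positivity).trans hz.2)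
  have hpt : ∀ t : ℝ, Real.exp (-(x * t)) * |FF a t| ≤
      ∑' d : ℕ, |cc64 q d| * (Real.exp (-(x * t)) * |FF l (t - 2 * Real.log d)|) := by
    intro t
    have h1 := FFa_eq64 h t
    have h2 : Summable fun d : ℕ => ‖cc64 q d * FF l (t - 2 * Real.log d)‖ := h1.summable.norm
    have h3 := norm_tsum_le_tsum_norm h2
    rw [h1.tsum_eq] at h3
    have h4 : ∀ d : ℕ, |cc64 q d| * (Real.exp (-(x * t)) * |FF l (t - 2 * Real.log d)|) =
        Real.exp (-(x * t)) * ‖cc64 q d * FF l (t - 2 * Real.log d)‖ := by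
      intro d
      rw [norm_mul, Real.norm_eq_abs, Real.norm_eq_abs]
      ring
    simp only [h4]
    rw [tsum_mul_left]
    exact mul_le_mul_of_nonneg_left h3 (Real.exp_pos _).le
  have hma : Measurable fun t : ℝ => Real.exp (-(x * t)) * FF a t :=
    (by fun_prop : Measurable fun t : ℝ => Real.exp (-(x * t))).mul (measurable_FF a)
  refine ⟨Integrable.mono' g1 hma.aestronglyMeasurable (Eventually.of_forall fun t => ?_), ?_⟩
  · rw [norm_mul, Real.norm_eq_abs, Real.norm_eq_abs, Real.abs_exp]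
    exact hpt t
  · exact (integral_mono_of_nonneg (Eventually.of_forall fun t => by positivity) g1
      (Eventually.of_forall hpt)).trans g2

private lemma FFa_lap64 {q : ℕ} [NeZero q] {χ : DirichletCharacter ℂ q} {a l : ℕ → ℝ} (h : DatL χ a l)
    {z : ℂ} (hz : 0 < z.re) (hi0 : Integrable (fun t : ℝ => Real.exp (-(z.re * t)) * FF l t))
    (hl : ∫ t : ℝ, Complex.exp (-z * t) * (FF l t : ℂ) = ZZ χ z) :
    ∫ t : ℝ, Complex.exp (-z * t) * (FF a t : ℂ) = GG χ z := by
  have hi := habs64 hi0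
  set I := ∫ t : ℝ, Real.exp (-(z.re * t)) * |FF l t| with hI
  have hI0 : 0 ≤ I := integral_nonneg fun t => by positivity
  have hzs := zsum64 hz
  have hmF := measurable_FF l
  have hz0 : z ≠ 0 := by
    intro h0
    rw [h0] at hz
    simp at hz
  have hnorm : ∀ (d : ℕ) (t : ℝ),
      ‖Complex.exp (-z * t) * ((cc64 q d * FF l (t - 2 * Real.log d) : ℝ) : ℂ)‖ =
        |cc64 q d| * (Real.exp (-(z.re * t)) * |FF l (t - 2 * Real.log d)|) := by
    intro d t
    rw [norm_mul, Complex.norm_exp, Complex.norm_real, Real.norm_eq_abs, abs_mul]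
    have : (-z * (t : ℂ)).re = -(z.re * t) := by simp
    rw [this]
    ring
  have hInt : ∀ d : ℕ, Integrable
      (fun t : ℝ => Complex.exp (-z * t) * ((cc64 q d * FF l (t - 2 * Real.log d) : ℝ) : ℂ)) := by
    intro d
    have h1 : Measurable fun t : ℝ => FF l (t - 2 * Real.log d) := hmF.comp (by fun_prop)
    have h2 : Measurable fun t : ℝ => ((cc64 q d * FF l (t - 2 * Real.log d) : ℝ) : ℂ) :=
      Complex.measurable_ofReal.comp (h1.const_mul _)
    have h3 : Measurable fun t : ℝ => Complex.exp (-z * t) := by fun_prop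
    refine Integrable.mono' ((shift64 hi (2 * Real.log d)).1.const_mul |cc64 q d|)
      (h3.mul h2).aestronglyMeasurable (Eventually.of_forall fun t => ?_)
    exact (hnorm d t).le
  have hS : Summable fun d : ℕ => ∫ t : ℝ,
      ‖Complex.exp (-z * t) * ((cc64 q d * FF l (t - 2 * Real.log d) : ℝ) : ℂ)‖ := by
    refine Summable.of_nonneg_of_le (fun d => integral_nonneg fun t => norm_nonneg _) (fun d => ?_)
      (hzs.1.mul_right I)
    simp only [hnorm]
    rw [integral_const_mul, (shift64 hi (2 * Real.log d)).2, ← mul_assoc]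
    exact mul_le_mul_of_nonneg_right
      (mul_le_mul_of_nonneg_right (abs_cc64 q d) (Real.exp_pos _).le) hI0
  have hsum := hasSum_integral_of_summable_integral_norm hInt hS
  have hpt : ∀ t : ℝ, ∑' d : ℕ, Complex.exp (-z * t) * ((cc64 q d * FF l (t - 2 * Real.log d) : ℝ) : ℂ) =
      Complex.exp (-z * t) * (FF a t : ℂ) := by
    intro t
    rw [tsum_mul_left]
    congr 1
    have h1 := (FFa_eq64 h t)
    rw [← h1.tsum_eq, Complex.ofReal_tsum]
  have hval : ∀ d : ℕ, ∫ t : ℝ, Complex.exp (-z * t) * ((cc64 q d * FF l (t - 2 * Real.log d) : ℝ) : ℂ) =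
      LSeries.term ((fun n : ℕ => (1 : DirichletCharacter ℂ q) n) *
        fun n : ℕ => ((ArithmeticFunction.moebius n : ℤ) : ℂ)) (1 + 2 * z) d * ZZ χ z := by
    intro d
    have e1 : (fun t : ℝ => Complex.exp (-z * t) * ((cc64 q d * FF l (t - 2 * Real.log d) : ℝ) : ℂ)) =
        fun t : ℝ => ((cc64 q d : ℂ) * Complex.exp (-(2 * z) * Real.log d)) *
          (Complex.exp (-z * ((t - 2 * Real.log d : ℝ) : ℂ)) * (FF l (t - 2 * Real.log d) : ℂ)) := by
      funext t
      have e2 : Complex.exp (-z * t) = Complex.exp (-(2 * z) * Real.log d) *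
          Complex.exp (-z * ((t - 2 * Real.log d : ℝ) : ℂ)) := by
        rw [← Complex.exp_add]
        congr 1
        push_cast
        ring
      rw [e2]
      push_cast
      ring
    rw [e1, integral_const_mul,
      integral_sub_right_eq_self (fun t : ℝ => Complex.exp (-z * (t : ℂ)) * (FF l t : ℂ)) (2 * Real.log d), hl]
    congr 1
    rcases Nat.eq_zero_or_pos d with hd | hd
    · rw [hd, cc64_zero]
      simp
    · have hd0 : (d : ℂ) ≠ 0 := by exact_mod_cast hd.ne'
      rw [LSeries.term_of_ne_zero hd.ne', Pi.mul_apply, Complex.cpow_add _ _ hd0, Complex.cpow_one,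
        Complex.cpow_def_of_ne_zero hd0, ← Complex.natCast_log]
      have e3 : Complex.exp (-(2 * z) * (Real.log d : ℂ)) = (Complex.exp ((Real.log d : ℂ) * (2 * z)))⁻¹ := by
        rw [← Complex.exp_neg]
        congr 1
        ring
      rw [e3]
      unfold cc64
      by_cases hco : d.Coprime q
      · have hu : IsUnit (d : ZMod q) := (ZMod.isUnit_iff_coprime d q).2 hco
        rw [if_pos hco, MulChar.one_apply hu]
        push_cast
        field_simp
      · have hu : ¬ IsUnit (d : ZMod q) := fun h1 => hco ((ZMod.isUnit_iff_coprime d q).1 h1)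
        rw [if_neg hco, MulChar.map_nonunit _ hu]
        simp
  simp only [hpt, hval] at hsum
  rw [← hsum.tsum_eq, tsum_mul_right]
  have hre : 1 < (1 + 2 * z).re := by simpa using hz
  have h1 := DirichletCharacter.LSeries.mul_mu_eq_one (1 : DirichletCharacter ℂ q) hre
  rw [← DirichletCharacter.LFunction_eq_LSeries _ hre] at h1
  unfold LSeries at h1
  unfold ZZ GG
  rw [EE_eq64 q hz0]
  have hz1 : (1 / 2 + z) ≠ 0 := by
    intro h6
    have := congrArg Complex.re h6
    simp at this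
    linarith
  rw [mul_div_mul_left _ _ hz0, mul_div_assoc', mul_comm (∑' _, _), h1]

theorem mean_L_of {q : ℕ} [NeZero q] {χ : DirichletCharacter ℂ q} {a l : ℕ → ℝ} {σ C : ℝ} (h : HypL χ a l σ C)
    (hL : LanL64 χ l) :
    Integrable (fun t : ℝ => FF l t * (1 + t ^ 2)⁻¹) ∧
      (∀ γ : ℝ, LFunction χ (1 / 2 + Complex.I * γ) = 0 →
        deriv (fun z : ℂ => LFunction χ (1 / 2 + z)) (Complex.I * γ) ≠ 0) ∧
      (∀ x : ℝ, 0 < x → Integrable (fun t : ℝ => Real.exp (-(x * t)) * FF a t)) ∧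
      (∀ z : ℂ, 0 < z.re → ∫ t : ℝ, Complex.exp (-z * t) * (FF a t : ℂ) = GG χ z) ∧
      Integrable (fun t : ℝ => FF a t * ((1 + |t|) ^ 3)⁻¹) := by
  obtain ⟨C1, hC1, hb⟩ := L1_bound64 h hL (abs_FFl_le h.dat)
  have hz : ∀ (f : ℕ → ℝ) (t : ℝ), t < 0 → FF f t = 0 := by
    intro f t ht
    unfold FF
    rw [if_neg (not_le.2 ht)]
  have hab : ∀ x : ℝ, 0 < x → x ≤ 1 → ∫ t : ℝ, Real.exp (-(x * t)) * |FF a t| ≤ (2 * C1) / x ^ 2 := by
    intro x hx hx1
    refine (FFa_bound64 h.dat hx (hL.1 x hx)).2.trans ?_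
    have h1 : 1 + 1 / (2 * x) ≤ 2 / x := by
      have e1 : 2 / x - (1 + 1 / (2 * x)) = (3 - 2 * x) / (2 * x) := by
        field_simp
        ring
      have e2 : 0 ≤ (3 - 2 * x) / (2 * x) := div_nonneg (by linarith) (by positivity)
      linarith
    have h2 := hb x hx hx1
    have h3 : 0 ≤ ∫ t : ℝ, Real.exp (-(x * t)) * |FF l t| := integral_nonneg fun t => by positivity
    calc (1 + 1 / (2 * x)) * ∫ t : ℝ, Real.exp (-(x * t)) * |FF l t| ≤ (2 / x) * (C1 / x) :=
          mul_le_mul h1 h2 h3 (by positivity)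
      _ = (2 * C1) / x ^ 2 := by
          field_simp
  refine ⟨wint64 1 (measurable_FF l) (hz l) (by fun_prop) (fun t _ => by positivity) (zero_le_two)
    (fun t ht => ?_) hL.1 (by simpa using hb), simple64 h.dat.dat.ne hC1 hL hb,
    fun x hx => (FFa_bound64 h.dat hx (hL.1 x hx)).1,
    fun z hz => FFa_lap64 h.dat hz (hL.1 z.re hz) (hL.2.1 z hz).2,
    wint64 2 (measurable_FF a) (hz a) (by fun_prop) (fun t _ => by positivity) (zero_le_one)
    (fun t ht => ?_) (fun x hx => (FFa_bound64 h.dat hx (hL.1 x hx)).1) hab⟩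
  · rw [← div_eq_mul_inv, inv_eq_one_div, div_le_div_iff₀ (by positivity) (by positivity)]
    have e1 : (1 + t) ^ (1 + 1) = (1 + t) ^ 2 := by norm_num
    rw [e1]
    nlinarith [sq_nonneg (1 - t)]
  · rw [abs_of_nonneg ht, one_mul]

end Pool.Agent.QT
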