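import Pool.Agent.Helper34.QT.LandL
import Pool.Agent.Helper64.QT.MeanLOf

/-!
# QTL3: mean bounds on the Liouville side
-/

set_option autoImplicit false

namespace Pool.Agent.QT

open Real Filter Topology MeasureTheory Set DirichletCharacter

theorem mean_L {q : ℕ} [NeZero q] {χ : DirichletCharacter ℂ q} {a l : ℕ → ℝ} {σ C : ℝ} (h : HypL χ a l σ C) :
    Integrable (fun t : ℝ => FF l t * (1 + t ^ 2)⁻¹) ∧
      (∀ γ : ℝ, LFunction χ (1 / 2 + Complex.I * γ) = 0 →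
        deriv (fun z : ℂ => LFunction χ (1 / 2 + z)) (Complex.I * γ) ≠ 0) ∧
      (∀ x : ℝ, 0 < x → Integrable (fun t : ℝ => Real.exp (-(x * t)) * FF a t)) ∧
      (∀ z : ℂ, 0 < z.re → ∫ t : ℝ, Complex.exp (-z * t) * (FF a t : ℂ) = GG χ z) ∧
      Integrable (fun t : ℝ => FF a t * ((1 + |t|) ^ 3)⁻¹) :=
  mean_L_of h (landau_L h)

end Pool.Agent.QT
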